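import Pool.Agent.Lib.MP_4b5f87_an.Contr
import Pool.Agent.Lib.MP_4b5f87_an.NonEquiv

set_option autoImplicit false
set_option linter.deprecated false

/-!
# The correspondence is not an invariant of the associated operator algebras

We exhibit one closed algebra `𝒜` of operators on a Hilbert space which is associated with two
multivariable (in fact one-variable) C*-dynamical systems on the same C*-algebra `A`, both given by
an injective `*`-endomorphism, while the two C*-correspondences are not unitarily equivalent.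

The algebra contains a coordinate operator `z`; the two systems correspond to expanding the
elements of `𝒜` around two different base points, `z = 0` and `z = 1`.
-/

namespace Pool.Agent.Results.MP_4b5f87_an.Counterexample

open Pool.Agent.Lib.MP_4b5f87_an

noncomputable section

/-- the monomial `s_{i_1} ⋯ s_{i_k} a` -/
def monomial {n : ℕ} {A : Type*} [CStarAlgebra A] {K : Type*} [NormedAddCommGroup K]
    [InnerProductSpace ℂ K] [CompleteSpace K] (ι : A →⋆ₐ[ℂ] (K →L[ℂ] K))
    (s : Fin n → (K →L[ℂ] K)) (w : List (Fin n)) (a : A) : K →L[ℂ] K :=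
  (w.map s).prod * ι a

/-- `𝒜`, with the copy `ι` of `A`, the elements `s i` and the maps `E` and `F i`, is an operator
algebra associated with the system `(A, α)` -/
structure AssociatedVia {n : ℕ} {A : Type*} [CStarAlgebra A] (α : Fin n → (A →⋆ₐ[ℂ] A))
    {K : Type*} [NormedAddCommGroup K] [InnerProductSpace ℂ K] [CompleteSpace K]
    (𝒜 : Subalgebra ℂ (K →L[ℂ] K)) (ι : A →⋆ₐ[ℂ] (K →L[ℂ] K)) (s : Fin n → (K →L[ℂ] K))
    (E : 𝒜 →ₐ[ℂ] 𝒜) (F : Fin n → (𝒜 →L[ℂ] 𝒜)) : Prop where
  /-- `𝒜` is closed -/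
  closed : IsClosed (𝒜 : Set (K →L[ℂ] K))
  /-- `ι` is injective -/
  inj : Function.Injective ι
  /-- the range of `ι` is the diagonal -/
  diagonal : ∀ x, x ∈ Set.range ι ↔ x ∈ 𝒜 ∧ star x ∈ 𝒜
  /-- `E` is a contractive homomorphism onto the diagonal, and idempotent -/
  E_norm : ∀ x, ‖E x‖ ≤ ‖x‖
  E_idem : ∀ x, E (E x) = E x
  E_range : ∀ x : 𝒜, x ∈ Set.range E ↔ star (x : K →L[ℂ] K) ∈ 𝒜
  /-- `E` annihilates the monomials of positive degree -/
  E_monomial : ∀ w a, w ≠ [] → ∀ h : monomial ι s w a ∈ 𝒜, E ⟨monomial ι s w a, h⟩ = 0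
  /-- the elements `s i` -/
  s_mem : ∀ i, s i ∈ 𝒜
  s_left : ∀ i, ∀ x ∈ 𝒜, s i * x = 0 → x = 0
  s_right : ∀ i, ∀ x ∈ 𝒜, x * s i = 0 → x = 0
  covariance : ∀ i a, ι a * s i = s i * ι (α i a)
  /-- `𝒜` is the closed linear span of the monomials -/
  dense : (𝒜 : Set (K →L[ℂ] K)) =
    closure (Submodule.span ℂ {x | ∃ w a, x = monomial ι s w a} : Set (K →L[ℂ] K))
  /-- `F i` is bounded and idempotent, fixes `s i * a` and annihilates all other monomials -/
  F_idem : ∀ i x, F i (F i x) = F i x
  F_fix : ∀ i a, ∀ h : s i * ι a ∈ 𝒜, F i ⟨s i * ι a, h⟩ = ⟨s i * ι a, h⟩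
  F_kill : ∀ i w a, w ≠ [i] → ∀ h : monomial ι s w a ∈ 𝒜, F i ⟨monomial ι s w a, h⟩ = 0

/-- `𝒜` is an operator algebra associated with the system `(A, α)` -/
def Associated {n : ℕ} {A : Type*} [CStarAlgebra A] (α : Fin n → (A →⋆ₐ[ℂ] A))
    {K : Type*} [NormedAddCommGroup K] [InnerProductSpace ℂ K] [CompleteSpace K]
    (𝒜 : Subalgebra ℂ (K →L[ℂ] K)) : Prop :=
  ∃ (ι : A →⋆ₐ[ℂ] (K →L[ℂ] K)) (s : Fin n → (K →L[ℂ] K)) (E : 𝒜 →ₐ[ℂ] 𝒜)
    (F : Fin n → (𝒜 →L[ℂ] 𝒜)), AssociatedVia α 𝒜 ι s E F

/-- unitary equivalence of the correspondences `X_(A,α) = ⊕ A_{α i}` and `X_(B,β) = ⊕ B_{β j}` -/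
def UnitarilyEquivalent {n m : ℕ} {A B : Type*} [CStarAlgebra A] [CStarAlgebra B]
    (α : Fin n → (A →⋆ₐ[ℂ] A)) (β : Fin m → (B →⋆ₐ[ℂ] B)) : Prop :=
  ∃ (γ : A ≃⋆ₐ[ℂ] B) (U : (Fin n → A) →ₗ[ℂ] (Fin m → B)), Function.Surjective U ∧
    (∀ ξ η, ∑ j, star (U ξ j) * U η j = γ (∑ i, star (ξ i) * η i)) ∧
    (∀ a ξ b, U (fun i => α i a * ξ i * b) = fun j => β j (γ a) * U ξ j * γ b)

section assembly

variable {G : Type*} [NormedAddCommGroup G] [InnerProductSpace ℂ G] [CompleteSpace G]
variable {D : Type*} [CStarAlgebra D] (d : Dat D) (π : D →⋆ₐ[ℂ] (G →L[ℂ] G))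

lemma prod_map {R : Type*} [Monoid R] (s : Fin 1 → R) (w : List (Fin 1)) :
    (w.map s).prod = s 0 ^ w.length := by
  induction w with
  | nil => simp
  | cons i w ih =>
    have : i = 0 := Subsingleton.elim _ _
    rw [List.map_cons, List.prod_cons, ih, this, List.length_cons, pow_succ']

lemma monomial_eq {b : Fin 2} (w : List (Fin 1)) (a : Alg D) :
    monomial (PiR π) (fun _ : Fin 1 => gen d π b) w a = gen d π b ^ w.length * PiR π a := by
  rw [monomial, prod_map]

/-- the map onto the diagonal, on the algebra -/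
def Ealg (hπ : Function.Injective π) [Nontrivial G] (b : Fin 2) :
    algb d π b →ₐ[ℂ] algb d π b where
  toFun x := ⟨Emap b x.1, Emap_mem d π hπ x.2⟩
  map_one' := by
    apply Subtype.ext
    have := Emap_PiR π b (1 : Alg D)
    rwa [map_one] at this
  map_mul' x y := Subtype.ext (Emap_mul d π hπ x.2 y.1)
  map_zero' := Subtype.ext (map_zero _)
  map_add' x y := Subtype.ext (map_add _ _ _)
  commutes' r := by
    apply Subtype.ext
    have h := Emap_PiR π b (algebraMap ℂ (Alg D) r)
    rwa [AlgHomClass.commutes] at h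

/-- the map onto the terms of order one, on the algebra -/
def Falg (b : Fin 2) : algb d π b →L[ℂ] algb d π b where
  toFun x := ⟨Fmap d π b x.1, Fmap_mem d π x.2⟩
  map_add' x y := Subtype.ext (map_add _ _ _)
  map_smul' c x := Subtype.ext (map_smul _ _ _)
  cont := by
    refine Continuous.subtype_mk ?_ _
    exact (Fmap d π b).continuous.comp continuous_subtype_val

lemma Emap_eq_of_star (hπ : Function.Injective π) [Nontrivial G] {b : Fin 2}
    (x : L2 Idx G →L[ℂ] L2 Idx G) :
    x ∈ Set.range (PiR π) ↔ x ∈ algb d π b ∧ star x ∈ algb d π b := by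
  constructor
  · rintro ⟨a, rfl⟩
    refine ⟨PiR_mem d π b a, ?_⟩
    rw [← map_star]
    exact PiR_mem d π b _
  · rintro ⟨h1, h2⟩
    rw [← Emap_eq_self d π hπ h1 h2]
    exact Emap_range d π hπ h1

lemma associated_base (hπ : Function.Injective π) [Nontrivial G] (b : Fin 2) :
    Associated (fun _ : Fin 1 => endo d b) (algb d π b) := by
  refine ⟨PiR π, fun _ => gen d π b, Ealg d π hπ b, fun _ => Falg d π b, ?_⟩
  exact
  { closed := isClosed_algb d π b
    inj := PiR_injective π hπ
    diagonal := Emap_eq_of_star d π hπ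
    E_norm := fun x => norm_Emap_le d π hπ x.2
    E_idem := fun x => by
      apply Subtype.ext
      obtain ⟨a, ha⟩ := Emap_range d π hπ x.2
      show Emap b (Emap b x.1) = Emap b x.1
      rw [← ha, Emap_PiR]
    E_range := fun x => by
      constructor
      · rintro ⟨y, rfl⟩
        obtain ⟨a, ha⟩ := Emap_range d π hπ y.2
        show star (Emap b y.1) ∈ algb d π b
        rw [← ha, ← map_star]
        exact PiR_mem d π b _
      · intro h
        exact ⟨x, Subtype.ext (Emap_eq_self d π hπ x.2 h)⟩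
    E_monomial := fun w a hw h => by
      apply Subtype.ext
      show Emap b (monomial (PiR π) (fun _ : Fin 1 => gen d π b) w a) = 0
      rw [monomial_eq]
      rcases w with _ | ⟨i, w⟩
      · exact absurd rfl hw
      · rw [List.length_cons, pow_succ', mul_assoc, Emap_gen_mul]
    s_mem := fun _ => gen_mem d π b
    s_left := fun _ x _ h => gen_mul_cancel d π b h
    s_right := fun _ x hx h => mul_gen_cancel d π b hx h
    covariance := fun _ a => PiR_mul_gen d π b a
    dense := by
      rw [coe_algb, mspan]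
      have : (Set.range fun p : ℕ × Alg D => gen d π b ^ p.1 * PiR π p.2) =
          {x | ∃ w a, x = monomial (PiR π) (fun _ : Fin 1 => gen d π b) w a} := by
        ext x
        constructor
        · rintro ⟨⟨k, a⟩, rfl⟩
          refine ⟨List.replicate k 0, a, ?_⟩
          rw [monomial_eq, List.length_replicate]
        · rintro ⟨w, a, rfl⟩
          exact ⟨(w.length, a), by rw [monomial_eq]⟩
      rw [this]
    F_idem := fun _ x => Subtype.ext (Fmap_idem d π x.2)
    F_fix := fun _ a h => Subtype.ext (Fmap_gen_PiR d π b a)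
    F_kill := fun i w a hw h => by
      apply Subtype.ext
      show Fmap d π b (monomial (PiR π) (fun _ : Fin 1 => gen d π b) w a) = 0
      rw [monomial_eq]
      rcases w with _ | ⟨i', w⟩
      · rw [List.length_nil, pow_zero, one_mul, Fmap_PiR]
      · rw [List.length_cons, pow_succ', mul_assoc, Fmap_gen_mul]
        rcases w with _ | ⟨i'', w⟩
        · exact absurd (by rw [Subsingleton.elim i' i]) hw
        · rw [List.length_cons, pow_succ', mul_assoc, Emap_gen_mul, mul_zero] }

lemma endo_injective (b : Fin 2) : Function.Injective (endo d b) := by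
  intro x y h
  have h2 : x.2 = y.2 := by
    have h0 : (endo d b x).2 = (endo d b y).2 := by rw [h]
    rwa [endo_snd, endo_snd] at h0
  have h1 := congrArg Prod.fst h
  rw [endo_fst, endo_fst, h2] at h1
  have h3 := add_right_cancel h1
  have h4 : star d.s * (d.s * x.1 * star d.s) * d.s = x.1 := by
    calc star d.s * (d.s * x.1 * star d.s) * d.s
        = (star d.s * d.s) * x.1 * (star d.s * d.s) := by simp only [mul_assoc]
      _ = x.1 := by rw [d.hs, one_mul, mul_one]
  have h5 : star d.s * (d.s * y.1 * star d.s) * d.s = y.1 := by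
    calc star d.s * (d.s * y.1 * star d.s) * d.s
        = (star d.s * d.s) * y.1 * (star d.s * d.s) := by simp only [mul_assoc]
      _ = y.1 := by rw [d.hs, one_mul, mul_one]
  ext1
  · rw [← h4, h3, h5]
  · exact h2

end assembly

lemma not_equivalent :
    ¬ UnitarilyEquivalent (fun _ : Fin 1 => endo datc 0) (fun _ : Fin 1 => endo datc 1) := by
  rintro ⟨γ, U, hs, hin, hmod⟩
  set u : Alg Dc := U (fun _ => 1) 0 with hu
  have h1 : star u * u = 1 := by
    have := hin (fun _ => 1) (fun _ => 1)
    simpa using this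
  have h2 : ∀ b, U (fun _ => b) 0 = u * γ b := by
    intro b
    have := congrFun (hmod 1 (fun _ => 1) b) 0
    simpa using this
  obtain ⟨ξ, hξ⟩ := hs (fun _ => 1)
  have h3 : u * γ (ξ 0) = 1 := by
    rw [← h2]
    have : (fun _ : Fin 1 => ξ 0) = ξ := by
      ext1 i
      rw [Subsingleton.elim i 0]
    rw [this, hξ]
  have h4 : u * star u = 1 := by
    have h5 : star u = γ (ξ 0) := by
      calc star u = star u * (u * γ (ξ 0)) := by rw [h3, mul_one]
        _ = (star u * u) * γ (ξ 0) := by rw [mul_assoc]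
        _ = γ (ξ 0) := by rw [h1, one_mul]
    rw [h5, h3]
  have h5 : ∀ a, endo datc 1 (γ a) * u = u * γ (endo datc 0 a) := by
    intro a
    rw [← h2]
    have := congrFun (hmod a (fun _ => 1) 1) 0
    simp only [mul_one, map_one] at this
    rw [this]
  exact no_equiv γ u h1 h5 h4

/-- there are two one-variable systems on one C*-algebra, given by injective `*`-endomorphisms,
and one operator algebra associated with both, such that the correspondences are not unitarily
equivalent -/
theorem result : ∃ (A : Type) (_ : CStarAlgebra A) (α β : Fin 1 → (A →⋆ₐ[ℂ] A)) (K : Type)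
    (_ : NormedAddCommGroup K) (_ : InnerProductSpace ℂ K) (_ : CompleteSpace K)
    (𝒜 : Subalgebra ℂ (K →L[ℂ] K)),
    (∀ i, Function.Injective (α i)) ∧ (∀ i, Function.Injective (β i)) ∧
      Associated α 𝒜 ∧ Associated β 𝒜 ∧ ¬ UnitarilyEquivalent α β := by
  refine ⟨Alg Dc, inferInstance, fun _ => endo datc 0, fun _ => endo datc 1, L2 Idx Gc,
    inferInstance, inferInstance, inferInstance, algb datc pic 0, fun _ => endo_injective datc 0,
    fun _ => endo_injective datc 1, associated_base datc pic pic_injective 0, ?_, not_equivalent⟩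
  rw [← algb_eq datc pic 0 1]
  exact associated_base datc pic pic_injective 1

end

end Pool.Agent.Results.MP_4b5f87_an.Counterexample
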